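import Pool.Agent.Helper26_MVS.All

/-!
# The minimal volume of the four-sphere among metrics with a circle symmetry (MP_33f2b9_gt)

Every smooth Riemannian metric on `S^4` with sectional curvature at most one which is invariant
under a nontrivial linear circle action (or, more generally, under a one-parameter group of
rotations in two orthogonal planes) has volume at least that of the round metric.
-/

namespace Pool.Agent.Results.MP_33f2b9_gt.CircleInvariant

open Pool.Agent.SecondKind Pool.Agent.MinVolSphere

/-- Let `(a, b) ≠ (0, 0)`.  Every smooth metric on `S^4` with sectional curvature at most one which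
is invariant under the rotations `circ a b t` has volume at least `8 π² / 3`, and the infimum of
the volume over all invariant metrics with `|K| ≤ 1` is exactly `8 π² / 3`. -/
theorem result (a b : ℝ) (hab : a ≠ 0 ∨ b ≠ 0) :
    (∀ g : Form 4, IsMetric g → SecLeOne g → Invariant a b g → 8 * Real.pi ^ 2 / 3 ≤ vol g) ∧
    sInf {V : ℝ | ∃ g : Form 4, IsMetric g ∧ AbsSecLeOne g ∧ Invariant a b g ∧ vol g = V} =
      8 * Real.pi ^ 2 / 3 :=
  Pool.Agent.MVS.H26.final a b hab

end Pool.Agent.Results.MP_33f2b9_gt.CircleInvariant
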