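import Pool.Agent.Helper35_ZRT.GRO

/-!
# The minimal volume of the four-sphere among metrics with small discrete rotations
(MP_33f2b9_gt)

No continuous symmetry is assumed.  Isometries with two common fixed points, one of which rotates
any given tangent vector at these points by an angle in `(0, 2/5]`, force every metric with
`|K| ≤ 1` on `S^4` to have at least the volume of the round metric.
-/

namespace Pool.Agent.Results.MP_33f2b9_gt.FiniteSymmetry

open Pool.Agent.SecondKind Pool.Agent.MinVolSphere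

/-- Let `g` be a smooth metric on `S^4` with `|K| ≤ 1` and let `p ≠ q` be two points.
(1) If `F` is a set of isometries of `g` which fix `p` and `q` and every nonzero tangent vector at
`p` and at `q` is rotated by an angle in `(0, 2/5]` by some member of `F`, then the volume of `g` is
at least `8 π² / 3`.
(2) The same is true if `g` has one isometry `φ` with the fixed points `p` and `q` such that no
nonzero tangent vector at `p` or at `q` is fixed by `(dφ)^k`, `0 < k ≤ 256`.
(3) Let `α, β` be real numbers such that for some `k` both `k α` and `k β` have nonzero distance at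
most `2/5` from the integral multiples of `2 π`.  Then the infimum of the volume over all metrics
with `|K| ≤ 1` which are invariant under the single rotation by `α` in the `(x_0,x_1)`-plane and by
`β` in the `(x_2,x_3)`-plane is exactly `8 π² / 3`.
(4) The same is true if `k α` and `k β` are not multiples of `2 π` for `0 < k ≤ 256`, for example if
`α = 2 π a / n`, `β = 2 π b / n` with `n ≥ 257` and `a, b` prime to `n`. -/
theorem result :
    (∀ (g : Form 4) (F : Set ((Fin 5 → ℝ) → Fin 5 → ℝ)) (p q : Fin 5 → ℝ), IsMetric g →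
      AbsSecLeOne g → (∀ φ ∈ F, IsIso g φ) → p ≠ q → RotSet g F (2 / 5) p →
      RotSet g F (2 / 5) q → 8 * Real.pi ^ 2 / 3 ≤ vol g) ∧
    (∀ (g : Form 4) (φ : (Fin 5 → ℝ) → Fin 5 → ℝ) (p q : Fin 5 → ℝ), IsMetric g → AbsSecLeOne g →
      IsIso g φ → p ≠ q → NoFix φ 256 p → NoFix φ 256 q → 8 * Real.pi ^ 2 / 3 ≤ vol g) ∧
    (∀ (α β : ℝ) (k : ℕ) (i j : ℤ),
      0 < |k * α - i * (2 * Real.pi)| → |k * α - i * (2 * Real.pi)| ≤ 2 / 5 →
      0 < |k * β - j * (2 * Real.pi)| → |k * β - j * (2 * Real.pi)| ≤ 2 / 5 →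
      sInf {V : ℝ | ∃ g : Form 4, IsMetric g ∧ AbsSecLeOne g ∧ RotInvariant α β g ∧ vol g = V} =
        8 * Real.pi ^ 2 / 3) ∧
    (∀ α β : ℝ, (∀ k : ℕ, 0 < k → k ≤ 256 → ∀ j : ℤ, k * α ≠ j * (2 * Real.pi) ∧
        k * β ≠ j * (2 * Real.pi)) →
      sInf {V : ℝ | ∃ g : Form 4, IsMetric g ∧ AbsSecLeOne g ∧ RotInvariant α β g ∧ vol g = V} =
        8 * Real.pi ^ 2 / 3) :=
  ⟨Pool.Agent.ZRT.H35.grp, Pool.Agent.ZRT.H26.ord, Pool.Agent.ZRT.H35.fin_.2.1,
    Pool.Agent.ZRT.H35.exact256⟩

end Pool.Agent.Results.MP_33f2b9_gt.FiniteSymmetry
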