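import Pool.Agent.Helper49_GBS.All

/-!
# A sharp inequality for the volume of the four-sphere with `|K| ≤ 1` (MP_33f2b9_gt)

The proof contains the Gauss-Bonnet theorem for all smooth metrics on `S^4` and the sharp pointwise
inequality `E ≤ 96 + 8 |p| - 16 |Ric₀|²` between the Gauss-Bonnet integrand `E` (`96` for the round
metric), the first Pontryagin density `p` and the trace-free Ricci tensor for `|K| ≤ 1`.
-/

namespace Pool.Agent.Results.MP_33f2b9_gt.GaussBonnetBound

open Pool.Agent.SecondKind Pool.Agent.MinVolSphere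

/-- Every smooth metric `g` on `S^4` with `|K| ≤ 1` satisfies
`8π²/3 + (1/6) ∫ |Ric₀|² ≤ vol g + (1/12) ∫ |p|`, where `|p|` is the absolute value of the first
Pontryagin density and `|Ric₀|²` the squared norm of the trace-free Ricci tensor; these functions
exist and are continuous.  Consequently the infimum of the volumes of the metrics with `|K| ≤ 1`
and `|p| ≤ 2 |Ric₀|²` is exactly `8π²/3`. -/
theorem result :
    (∀ g : Form 4, IsMetric g → AbsSecLeOne g →
      (∃ P, IsPont g P ∧ ContinuousOn P {x | OnSphere x}) ∧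
      (∃ Q, IsRicz g Q ∧ ContinuousOn Q {x | OnSphere x}) ∧
      ∀ P Q, IsPont g P → IsRicz g Q →
        8 * Real.pi ^ 2 / 3 + (1 / 6) * integ g Q ≤ vol g + (1 / 12) * integ g P) ∧
    sInf {V : ℝ | ∃ (g : Form 4) (P Q : (Fin 5 → ℝ) → ℝ), IsMetric g ∧ AbsSecLeOne g ∧
        IsPont g P ∧ IsRicz g Q ∧ (∀ x, OnSphere x → P x ≤ 2 * Q x) ∧ vol g = V} =
      8 * Real.pi ^ 2 / 3 := by
  obtain ⟨h1, h2, -⟩ := Pool.Agent.GBS.H49.all_fn2
  exact ⟨h1, h2⟩

end Pool.Agent.Results.MP_33f2b9_gt.GaussBonnetBound
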