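import Pool.Agent.Helper49_GBS.All

/-!
# Lower bounds for the volume of the four-sphere with curvature between `-c` and `1` (MP_33f2b9_gt)

The constant `(8 + 4c + 5c²)/9` is the maximum of the Gauss-Bonnet integrand (normalised to one for
the round metric) over all curvature tensors with `-c ≤ K ≤ 1` when `c ≥ 1/5`; for `c ≤ 1/5` the
maximum is one.
-/

namespace Pool.Agent.Results.MP_33f2b9_gt.LowerBound

open Pool.Agent.SecondKind Pool.Agent.MinVolSphere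

/-- Let `0 ≤ c ≤ 1`.  Every smooth metric on `S^4` with `-c ≤ K ≤ 1` satisfies
`8π²/3 ≤ max (1, (8 + 4c + 5c²)/9) vol`.  In particular (`c = 1/5`) the infimum of the volumes of
the metrics with `-1/5 ≤ K ≤ 1` is exactly `8π²/3`, and (`c = 1`) the minimal volume of `S^4` is at
least `24π²/17`. -/
theorem result :
    (∀ (g : Form 4) (c : ℝ), IsMetric g → 0 ≤ c → c ≤ 1 → SecLeOne g → SecGe (-c) g →
      8 * Real.pi ^ 2 / 3 ≤ max 1 ((8 + 4 * c + 5 * c ^ 2) / 9) * vol g) ∧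
    sInf {V : ℝ | ∃ g : Form 4, IsMetric g ∧ SecLeOne g ∧ SecGe (-(1 / 5)) g ∧ vol g = V} =
      8 * Real.pi ^ 2 / 3 ∧
    24 * Real.pi ^ 2 / 17 ≤ sInf {V : ℝ | ∃ g : Form 4, IsMetric g ∧ AbsSecLeOne g ∧ vol g = V} ∧
    sInf {V : ℝ | ∃ g : Form 4, IsMetric g ∧ AbsSecLeOne g ∧ vol g = V} ≤
      8 * Real.pi ^ 2 / 3 := by
  obtain ⟨-, -, h3, ⟨h4, h4'⟩, -, h5, -⟩ := Pool.Agent.GBS.H49.all_fin
  exact ⟨h3, h5, h4, h4'⟩

end Pool.Agent.Results.MP_33f2b9_gt.LowerBound
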